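import Pool.Agent.SepClass.Inter

/-!
# A class of separable permutations containing Av(231) with a rational generating function

Permutations of length `n` are elements of `Equiv.Perm (Fin n)`.
-/

namespace Pool.Agent.Results.MP_163b0f_co.RationalSeparable

/-- `Contains π σ`: some subsequence of `π` is order isomorphic to `σ`. -/
def Contains {n k : ℕ} (π : Equiv.Perm (Fin n)) (σ : Equiv.Perm (Fin k)) : Prop :=
  ∃ f : Fin k → Fin n, StrictMono f ∧ ∀ i j, σ i < σ j ↔ π (f i) < π (f j)

/-- A permutation class: a set of finite permutations closed downward under containment. -/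
structure PermClass where
  /-- the members of length `n` -/
  mem : ∀ n : ℕ, Set (Equiv.Perm (Fin n))
  closed : ∀ {n k : ℕ} (π : Equiv.Perm (Fin n)) (σ : Equiv.Perm (Fin k)),
    π ∈ mem n → Contains π σ → σ ∈ mem k

/-- The generating function `∑ cₙ xⁿ`, where `cₙ` is the number of members of length `n`. -/
noncomputable def genFun (C : PermClass) : PowerSeries ℤ :=
  PowerSeries.mk fun n => (Nat.card (C.mem n) : ℤ)

/-- `f = P / Q` for polynomials `P`, `Q` with integer coefficients. -/
def IsRational (f : PowerSeries ℤ) : Prop :=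
  ∃ P Q : Polynomial ℤ, Q ≠ 0 ∧ (Q : PowerSeries ℤ) * f = (P : PowerSeries ℤ)

/-- the permutation 231 (one-line notation, shifted to start at 0) -/
def p231 : Equiv.Perm (Fin 3) := ⟨![1, 2, 0], ![2, 0, 1], by decide, by decide⟩

/-- the permutation 2413 (one-line notation, shifted to start at 0) -/
def p2413 : Equiv.Perm (Fin 4) := ⟨![1, 3, 0, 2], ![2, 0, 3, 1], by decide, by decide⟩

/-- the permutation 3142 (one-line notation, shifted to start at 0) -/
def p3142 : Equiv.Perm (Fin 4) := ⟨![2, 0, 3, 1], ![1, 3, 0, 2], by decide, by decide⟩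

open Pool.Agent.SepClass

/-- one-line notation as a list of natural numbers -/
def word {n : ℕ} (π : Equiv.Perm (Fin n)) : List ℕ := List.ofFn fun i => (π i : ℕ)

theorem length_word {n : ℕ} (π : Equiv.Perm (Fin n)) : (word π).length = n := by simp [word]

theorem word_inj {n : ℕ} : Function.Injective (word (n := n)) := by
  intro π σ h
  have := List.ofFn_injective h
  ext i
  exact congrFun this i

theorem nodup_word {n : ℕ} (π : Equiv.Perm (Fin n)) : (word π).Nodup := by
  unfold word
  rw [List.nodup_ofFn]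
  intro i j h
  exact π.injective (Fin.ext h)

theorem word_perm {n : ℕ} (π : Equiv.Perm (Fin n)) : List.Perm (word π) (List.range n) := by
  have h := perm_range_of (nodup_word π) (by
    intro x hx
    rw [length_word]
    unfold word at hx
    rw [List.mem_ofFn] at hx
    obtain ⟨i, rfl⟩ := hx
    exact (π i).isLt)
  rwa [length_word] at h

theorem exists_word {n : ℕ} {w : List ℕ} (h : List.Perm w (List.range n)) :
    ∃ π : Equiv.Perm (Fin n), word π = w := by
  have hlen : w.length = n := by simpa using h.length_eq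
  have hnd : w.Nodup := h.nodup_iff.2 List.nodup_range
  have hlt : ∀ i : Fin n, w.get (Fin.cast hlen.symm i) < n := by
    intro i
    have : w.get (Fin.cast hlen.symm i) ∈ w := List.get_mem _ _
    rw [h.mem_iff, List.mem_range] at this
    exact this
  let f : Fin n → Fin n := fun i => ⟨w.get (Fin.cast hlen.symm i), hlt i⟩
  have hf : Function.Injective f := by
    intro i j hij
    have h1 : w.get (Fin.cast hlen.symm i) = w.get (Fin.cast hlen.symm j) := congrArg Fin.val hij
    have h2 := (List.nodup_iff_injective_get.1 hnd) h1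
    exact Fin.ext (by simpa using congrArg Fin.val h2)
  refine ⟨Equiv.ofBijective f (Finite.injective_iff_bijective.1 hf), ?_⟩
  refine List.ext_getElem (by simp [word, hlen]) ?_
  intro i h1 h2
  simp [word, f]

theorem card_eq (P : Wd) (n : ℕ) :
    Nat.card {π : Equiv.Perm (Fin n) | P (word π)} = cnt P n := by
  have e : {π : Equiv.Perm (Fin n) | P (word π)} ≃ {w // w ∈ FW P n} := by
    refine Equiv.ofBijective (fun π => ⟨word π.1, mem_FW.2 ⟨word_perm π.1, π.2⟩⟩) ⟨?_, ?_⟩
    · rintro ⟨π, hπ⟩ ⟨σ, hσ⟩ h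
      have := word_inj (congrArg Subtype.val h)
      exact Subtype.ext this
    · rintro ⟨w, hw⟩
      obtain ⟨h1, h2⟩ := mem_FW.1 hw
      obtain ⟨π, rfl⟩ := exists_word h1
      exact ⟨⟨π, h2⟩, rfl⟩
  rw [Nat.card_congr e]
  simp [cnt]

theorem sublist_word {n k : ℕ} (π : Equiv.Perm (Fin n)) {f : Fin k → Fin n} (hf : StrictMono f) :
    List.Sublist (List.ofFn fun i => (π (f i) : ℕ)) (word π) := by
  rw [List.sublist_iff_exists_fin_orderEmbedding_get_eq]
  have hk : (List.ofFn fun i => (π (f i) : ℕ)).length = k := by simp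
  refine ⟨OrderEmbedding.ofStrictMono
    (fun i => Fin.cast (length_word π).symm (f (Fin.cast hk i))) ?_, ?_⟩
  · intro i j hij
    exact hf (by simpa using hij)
  · intro i
    simp [word]
    rfl

theorem word_of_contains {n k : ℕ} {π : Equiv.Perm (Fin n)} {σ : Equiv.Perm (Fin k)}
    (h : Contains π σ) : ∃ (l : List ℕ) (g : ℕ → ℕ), List.Sublist l (word π) ∧
      (∀ a ∈ l, ∀ b ∈ l, a < b → g a < g b) ∧ l.map g = word σ := by
  classical
  obtain ⟨f, hf, hσ⟩ := h
  let g : ℕ → ℕ := fun y => if hy : ∃ i : Fin k, (π (f i) : ℕ) = y then (σ hy.choose : ℕ) else 0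
  have hg : ∀ i : Fin k, g (π (f i)) = σ i := by
    intro i
    have hy : ∃ i' : Fin k, (π (f i') : ℕ) = (π (f i) : ℕ) := ⟨i, rfl⟩
    have e : g (π (f i)) = (σ hy.choose : ℕ) := by simp only [g]; rw [dif_pos hy]
    rw [e]
    have h1 := hy.choose_spec
    have h2 : hy.choose = i := hf.injective (π.injective (Fin.ext h1))
    rw [h2]
  refine ⟨List.ofFn fun i => (π (f i) : ℕ), g, sublist_word π hf, ?_, ?_⟩
  · intro a ha b hb hab
    rw [List.mem_ofFn] at ha hb
    obtain ⟨i, rfl⟩ := ha
    obtain ⟨j, rfl⟩ := hb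
    rw [hg, hg]
    exact (hσ i j).2 hab
  · rw [List.map_ofFn]
    unfold word
    congr 1
    funext i
    exact hg i

/-- the class -/
def sepClass : PermClass where
  mem n := {π | C (word π)}
  closed := by
    intro n k π σ hπ h
    obtain ⟨l, g, h1, h2, h3⟩ := word_of_contains h
    show C (word σ)
    rw [← h3]
    exact Inv.C l g (C.hered _ _ hπ h1) h2

theorem genFun_sepClass : genFun sepClass = GF C := by
  ext n
  simp only [genFun, GF, PowerSeries.coeff_mk]
  congr 1
  exact card_eq C n

theorem av231_word {n : ℕ} {π : Equiv.Perm (Fin n)} (h : ¬ Contains π p231) :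
    Av231 (word π) := by
  intro a b c hab hbc hs
  apply h
  rw [List.sublist_iff_exists_fin_orderEmbedding_get_eq] at hs
  obtain ⟨f, hf⟩ := hs
  refine ⟨fun i => Fin.cast (length_word π) (f i), ?_, ?_⟩
  · intro i j hij
    exact f.strictMono hij
  · have key : ∀ i : Fin 3, (π (Fin.cast (length_word π) (f i)) : ℕ) = ![b, c, a] i := by
      intro i
      have h1 := hf i
      simp only [word, List.get_ofFn] at h1
      fin_cases i
      · exact h1.symm
      · exact h1.symm
      · exact h1.symm
    intro i j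
    rw [Fin.lt_def (a := π _), key, key]
    fin_cases i <;> fin_cases j <;> simp [p231] <;> omega

theorem sep_word {n : ℕ} {π : Equiv.Perm (Fin n)} (h : Sep (word π)) :
    ¬ Contains π p2413 ∧ ¬ Contains π p3142 := by
  constructor
  · rintro ⟨f, hf, hσ⟩
    have hs := sublist_word π hf
    have h1 : π (f 2) < π (f 0) := (hσ 2 0).1 (by decide)
    have h2 : π (f 0) < π (f 3) := (hσ 0 3).1 (by decide)
    have h3 : π (f 3) < π (f 1) := (hσ 3 1).1 (by decide)
    have := (h (π (f 2)) (π (f 0)) (π (f 3)) (π (f 1)) h1 h2 h3).1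
    apply this
    simpa [List.ofFn_succ] using hs
  · rintro ⟨f, hf, hσ⟩
    have hs := sublist_word π hf
    have h1 : π (f 1) < π (f 3) := (hσ 1 3).1 (by decide)
    have h2 : π (f 3) < π (f 0) := (hσ 3 0).1 (by decide)
    have h3 : π (f 0) < π (f 2) := (hσ 0 2).1 (by decide)
    have := (h (π (f 1)) (π (f 3)) (π (f 0)) (π (f 2)) h1 h2 h3).2
    apply this
    simpa [List.ofFn_succ] using hs

theorem rational_C : IsRational (genFun sepClass) := by
  rw [genFun_sepClass]
  let x : Polynomial ℤ := Polynomial.X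
  refine ⟨(1 - 3 * x) ^ 2 * ((1 - 2 * x) ^ 2 * (1 - 3 * x + x ^ 2 - x ^ 4) -
      x ^ 3 * (2 - 2 * x + x ^ 3)),
    (1 - x) * (1 - 2 * x) ^ 3 * (1 - 4 * x) * (1 - 3 * x + x ^ 2 - x ^ 4), ?_, ?_⟩
  · intro h
    have := congrArg (Polynomial.eval 0) h
    simp [x] at this
  · have h2 : ((2 : Polynomial ℤ) : PowerSeries ℤ) = 2 :=
      map_ofNat (Polynomial.coeToPowerSeries.ringHom (R := ℤ)) 2
    have h3 : ((3 : Polynomial ℤ) : PowerSeries ℤ) = 3 :=
      map_ofNat (Polynomial.coeToPowerSeries.ringHom (R := ℤ)) 3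
    have h4 : ((4 : Polynomial ℤ) : PowerSeries ℤ) = 4 :=
      map_ofNat (Polynomial.coeToPowerSeries.ringHom (R := ℤ)) 4
    simp only [x, Polynomial.coe_mul, Polynomial.coe_pow, Polynomial.coe_sub, Polynomial.coe_add,
      Polynomial.coe_one, Polynomial.coe_X, h2, h3, h4]
    exact GF_C_rational

/-- There is a permutation class `C` with `Av(231) ⊆ C ⊆ Av(2413, 3142)` whose generating function
is rational. -/
theorem result : ∃ C : PermClass,
    (∀ (n : ℕ) (π : Equiv.Perm (Fin n)), ¬ Contains π p231 → π ∈ C.mem n) ∧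
    (∀ (n : ℕ) (π : Equiv.Perm (Fin n)), π ∈ C.mem n →
      ¬ Contains π p2413 ∧ ¬ Contains π p3142) ∧
    IsRational (genFun C) :=
  ⟨sepClass, fun _ π h => C_of_av231 (nodup_word π) (av231_word h),
    fun _ _ h => sep_word (C.Sep h), rational_C⟩

end Pool.Agent.Results.MP_163b0f_co.RationalSeparable
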